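import Mathlib
import Pool.Agent.H945R3.GAP.C

set_option autoImplicit false
set_option maxHeartbeats 4000000

/-! Almost all members of a family, all residue classes at once, with a lower bound for the members. -/

namespace Pool.Agent.H945R3.GAP

open Finset Pool.Agent.H373R2.T7 Pool.Agent.H560R3.GB
open ArithmeticFunction (vonMangoldt)

theorem main_k (q : ℕ) (hq : 1 ≤ q) (hsq : Squarefree q) (h C U : ℕ) (hh : 1 ≤ h) (ε : ℝ) (hε : 0 < ε) :
    ∃ N₀ K : ℕ, ∀ N : ℕ, N₀ ≤ N → ∀ (x : ℕ) (s : ℕ → ℕ),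
      (∀ m ∈ Icc 1 x, Even (s m) ∧ 1 ≤ s m ∧ s m ≤ N) →
      (Pool.Agent.H373R2.T7.energy h x (fun m => (s m : ℤ)) : ℝ) * N ≤ Real.log N ^ C * (x : ℝ) ^ (2 * h) →
      ∃ S : Finset ℕ, (S.card : ℝ) ≤ x / Real.log N ^ U ∧ ∀ m ∈ Icc 1 x, m ∉ S →
        (N : ℝ) / Real.log N ^ K < s m ∧ ∀ c : ℕ, (∀ p ∈ q.primeFactors, ¬ p ∣ c ∧ ¬ c ≡ s m [MOD p]) →
        |(gc q c (s m) : ℝ) - sing (s m) / Aq q (s m) * (s m / Real.log (s m) ^ 2)| ≤
          ε * (sing (s m) / Aq q (s m) * (s m / Real.log (s m) ^ 2)) := by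
  classical
  set ε' : ℝ := min ε 1 with hε'
  have hε'0 : 0 < ε' := lt_min hε one_pos
  have hε'1 : ε' ≤ 1 := min_le_right _ _
  have hqr : (1 : ℝ) ≤ q := by exact_mod_cast hq
  set K : ℕ := C + 2 * h * (U + 1) + 1 with hK
  obtain ⟨B0, hB0⟩ := gold_c h C (K + 2 + (U + 2))
  set B1 : ℕ := max B0 2 with hB1
  obtain ⟨n1, h1⟩ := hB0 (B1 + 1)
  obtain ⟨n2, h2⟩ := member_c q hq hsq ε' hε'0 hε'1 K (B1 + 1)
  obtain ⟨n3, h3⟩ := ev_L' (h + 8 + q)
  obtain ⟨n4, h4⟩ := ev_log' K 1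
  refine ⟨n1 + n2 + n3 + n4 + 3, K, fun N hN x s hs hE => ?_⟩
  have hL := h3 N (by omega)
  have hLK := h4 N (by omega)
  have hN3 : (3 : ℝ) ≤ N := by exact_mod_cast (by omega : 3 ≤ N)
  have hN0 : (0 : ℝ) < N := by linarith
  set L := Real.log (N : ℝ) with hLd
  have hh0 : (0 : ℝ) ≤ h := Nat.cast_nonneg _
  have hL8 : 8 ≤ L := by linarith
  have hLq : (q : ℝ) ≤ L := by linarith
  have hLh : (h : ℝ) + 1 ≤ L := by linarith
  have hL1 : 1 ≤ L := by linarith
  have hL0 : 0 < L := by linarith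
  rw [one_mul] at hLK
  have hs0 : 0 < √(N : ℝ) := Real.sqrt_pos.2 hN0
  have hss : √(N : ℝ) * √(N : ℝ) = N := Real.mul_self_sqrt hN0.le
  obtain ⟨z, hz⟩ : ∃ z, z = ⌈L ^ B1⌉₊ := ⟨_, rfl⟩
  have hz1 : L ^ B1 ≤ z := by rw [hz]; exact Nat.le_ceil _
  have hz2 : (z : ℝ) ≤ L ^ (B1 + 1) := by
    have h5 : (z : ℝ) < L ^ B1 + 1 := by rw [hz]; exact Nat.ceil_lt_add_one (by positivity)
    have h6 : 1 ≤ L ^ B1 := one_le_pow₀ hL1
    calc (z : ℝ) ≤ L ^ B1 + 1 := h5.le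
      _ ≤ L ^ B1 * 2 := by linarith
      _ ≤ L ^ B1 * L := mul_le_mul_of_nonneg_left (by linarith) (by positivity)
      _ = L ^ (B1 + 1) := by rw [pow_succ]
  have hzB0 : L ^ B0 ≤ z := (pow_le_pow_right₀ hL1 (le_max_left _ _)).trans hz1
  have hz22 : L ^ 2 ≤ z := (pow_le_pow_right₀ hL1 (le_max_right _ _)).trans hz1
  have hmom := h1 N (by omega) x s (fun m hm => (hs m hm).2) hE z hzB0 hz2 q
  set Y : ℕ := ⌊(N : ℝ) / L ^ K⌋₊ with hY
  set S1 : Finset ℕ := (Icc 1 x).filter (fun m => s m ≤ Y) with hS1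
  set τ : ℝ := N / L ^ (K + 2) with hτ
  have hτ0 : 0 < τ := by positivity
  set S2 : ℕ → Finset ℕ := fun c => (Icc 1 x).filter (fun m => τ < |Rc q c (s m) - Rzc q c z (s m)|) with hS2
  have hxr : (0 : ℝ) ≤ x := Nat.cast_nonneg _
  have hc1 : (S1.card : ℝ) ≤ x / L ^ (U + 1) := by
    have h5 := few_small h x Y s
    rw [← hS1] at h5
    have hY1 : (Y : ℝ) ≤ N / L ^ K := Nat.floor_le (by positivity)
    have hY2 : 1 ≤ (N : ℝ) / L ^ K := by
      rw [le_div_iff₀ (by positivity), one_mul]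
      refine hLK.trans ?_
      have : 1 ≤ √(N : ℝ) := by
        rw [Real.one_le_sqrt]
        linarith
      nlinarith
    have h6 : ((h : ℝ) * Y + 1) ≤ (h + 1) * (N / L ^ K) := by
      have := mul_le_mul_of_nonneg_left hY1 hh0
      linarith
    have h7 : (S1.card : ℝ) ^ (2 * h) ≤ (x / L ^ (U + 1)) ^ (2 * h) := by
      refine h5.trans ?_
      have h8 : (Pool.Agent.H373R2.T7.energy h x (fun m => (s m : ℤ)) : ℝ) ≤ L ^ C * (x : ℝ) ^ (2 * h) / N := by
        rw [le_div_iff₀ hN0]; exact hE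
      calc ((h : ℝ) * Y + 1) * Pool.Agent.H373R2.T7.energy h x (fun m => (s m : ℤ)) ≤
            (h + 1) * (N / L ^ K) * (L ^ C * (x : ℝ) ^ (2 * h) / N) := by
            apply mul_le_mul h6 h8 (Nat.cast_nonneg _) (by positivity)
        _ = ((h + 1) / L) * (x / L ^ (U + 1)) ^ (2 * h) := by
            rw [hK, div_pow, ← pow_mul]
            have e : L ^ (C + 2 * h * (U + 1) + 1) = L ^ C * L ^ ((U + 1) * (2 * h)) * L := by
              rw [← pow_add, ← pow_succ]; congr 1; ring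
            rw [e]
            field_simp
        _ ≤ 1 * (x / L ^ (U + 1)) ^ (2 * h) := by
            apply mul_le_mul_of_nonneg_right _ (by positivity)
            rw [div_le_one hL0]
            linarith
        _ = _ := one_mul _
    exact le_of_pow_le_pow_left₀ (by omega) (by positivity) h7
  have hc2 : ∀ c : ℕ, ((S2 c).card : ℝ) ≤ x / L ^ (U + 2) := by
    intro c
    have h5 : ((S2 c).card : ℝ) * τ ≤ ∑ m ∈ Icc 1 x, |Rc q c (s m) - Rzc q c z (s m)| := by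
      calc ((S2 c).card : ℝ) * τ = ∑ _m ∈ S2 c, τ := by rw [sum_const, nsmul_eq_mul]
        _ ≤ ∑ m ∈ S2 c, |Rc q c (s m) - Rzc q c z (s m)| := sum_le_sum fun m hm => (mem_filter.1 hm).2.le
        _ ≤ _ := sum_le_sum_of_subset_of_nonneg (filter_subset _ _) fun _ _ _ => abs_nonneg _
    have h6 := h5.trans (hmom c)
    rw [← le_div_iff₀ hτ0] at h6
    refine h6.trans (le_of_eq ?_)
    rw [hτ, pow_add L (K + 2) (U + 2)]
    field_simp
  set S3 : Finset ℕ := (range q).biUnion S2 with hS3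
  have hc3 : (S3.card : ℝ) ≤ x / L ^ (U + 1) := by
    have h5 : (S3.card : ℝ) ≤ ∑ c ∈ range q, ((S2 c).card : ℝ) := by
      exact_mod_cast card_biUnion_le
    refine h5.trans ((sum_le_sum fun c _ => hc2 c).trans ?_)
    rw [sum_const, card_range, nsmul_eq_mul]
    calc (q : ℝ) * (x / L ^ (U + 2)) ≤ L * (x / L ^ (U + 2)) := by
          apply mul_le_mul_of_nonneg_right hLq (by positivity)
      _ = x / L ^ (U + 1) := by
          rw [pow_succ L (U + 1)]
          field_simp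
  refine ⟨S1 ∪ S3, ?_, ?_⟩
  · have h5 : ((S1 ∪ S3).card : ℝ) ≤ S1.card + S3.card := by exact_mod_cast card_union_le _ _
    calc ((S1 ∪ S3).card : ℝ) ≤ x / L ^ (U + 1) + x / L ^ (U + 1) := by linarith
      _ = (2 / L) * (x / L ^ U) := by rw [pow_succ]; field_simp; ring
      _ ≤ 1 * (x / L ^ U) := by
          apply mul_le_mul_of_nonneg_right _ (by positivity)
          rw [div_le_one hL0]
          linarith
      _ = _ := one_mul _
  · intro m hm hmS
    rw [mem_union, not_or] at hmS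
    obtain ⟨hm1, hm2⟩ := hmS
    have h5 : Y < s m := by
      by_contra hcon
      exact hm1 (mem_filter.2 ⟨hm, by omega⟩)
    refine ⟨Nat.lt_of_floor_lt h5, fun c hc => ?_⟩
    have hcq : c % q ∈ range q := mem_range.2 (Nat.mod_lt _ hq)
    have h6 : |Rc q (c % q) (s m) - Rzc q (c % q) z (s m)| ≤ τ := by
      by_contra hcon
      exact hm2 (mem_biUnion.2 ⟨c % q, hcq, mem_filter.2 ⟨hm, lt_of_not_ge hcon⟩⟩)
    have h7 : (N : ℝ) / L ^ K < s m := Nat.lt_of_floor_lt h5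
    have hcc : ∀ p ∈ q.primeFactors, ¬ p ∣ c % q ∧ ¬ c % q ≡ s m [MOD p] := by
      intro p hp
      have hpq := Nat.dvd_of_mem_primeFactors hp
      obtain ⟨u1, u2⟩ := hc p hp
      have hm' : c % q ≡ c [MOD p] := (Nat.mod_modEq c q).of_dvd hpq
      refine ⟨fun h => u1 ?_, fun h => u2 (hm'.symm.trans h)⟩
      exact (Nat.dvd_mod_iff hpq).1 h
    have h8 := h2 N (by omega) (s m) z (hs m hm).1 (hs m hm).2.2 h7 hz22 hz2 (c % q) hcc h6
    rw [gc_mod] at h8
    refine h8.trans ?_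
    apply mul_le_mul_of_nonneg_right (min_le_left _ _)
    by_contra hneg
    push Not at hneg
    have h9 := abs_nonneg ((gc q c (s m) : ℝ) - sing (s m) / Aq q (s m) * (s m / Real.log (s m) ^ 2))
    have h10 : ε' * (sing (s m) / Aq q (s m) * (s m / Real.log (s m) ^ 2)) < 0 := mul_neg_of_pos_of_neg hε'0 hneg
    linarith

end Pool.Agent.H945R3.GAP
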