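import Mathlib
import Pool.Agent.H945R3.GAP.Defs

set_option autoImplicit false

/-! Goldbach partitions with both primes above the square root: definitions. -/

namespace Pool.Agent.H945R3.KNJ

open Finset

/-- the primes `p` with `√(2 n) < p ≤ n` such that `2 n - p` is prime and one of the two primes `p`,
`2 n - p` is congruent to `c` modulo `q` -/
def parts (q c n : ℕ) : Finset ℕ :=
  (Icc 1 n).filter (fun p => 2 * n < p ^ 2 ∧ p.Prime ∧ (2 * n - p).Prime ∧
    (p ≡ c [MOD q] ∨ 2 * n - p ≡ c [MOD q]))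

/-- for every `c` such that `c` and `2 n - c` are prime to `q` there is such a prime `p`, and their
number is at least `(1 - ε) / 2 * HL (2 n) / adm q n` -/
def GoodK (ε : ℝ) (q n : ℕ) : Prop :=
  ∀ c : ℕ, c.Coprime q → Int.gcd (2 * (n : ℤ) - (c : ℤ)) (q : ℤ) = 1 → 0 < (parts q c n).card ∧
    (1 - ε) / 2 * (Pool.Agent.H560R3.GB.HL (2 * n) / Pool.Agent.H945R3.GAP.adm q n) ≤ (parts q c n).card

open Classical in
/-- the number of the `m ∈ {1, ..., x}` for which `GoodK ε q (s m)` is false -/
noncomputable def badK (ε : ℝ) (q x : ℕ) (s : ℕ → ℕ) : ℕ :=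
  ((Icc 1 x).filter (fun m => ¬ GoodK ε q (s m))).card

end Pool.Agent.H945R3.KNJ
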