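import Mathlib
import Pool.Agent.H945R3.KNJ.A
import Pool.Agent.H945R3.GAP.D
import Pool.Agent.H945R3.KNJ.Defs

set_option autoImplicit false
set_option maxHeartbeats 1000000

/-! Goldbach partitions with both primes above the square root. -/

namespace Pool.Agent.H945R3.KNJ

open Finset Pool.Agent.H560R3.GB Pool.Agent.H945R3.GAP

lemma gc_le (q c n : ℕ) : gc q c (2 * n) ≤ ((parts q c n).card + (parts q c n).card) +
    ((Nat.sqrt (2 * n) + 1) + (Nat.sqrt (2 * n) + 1)) := by
  classical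
  unfold gc
  set A := (antidiagonal (2 * n)).filter (fun t : ℕ × ℕ => t.1.Prime ∧ t.2.Prime ∧ t.1 ≡ c [MOD q]) with hA
  have hmem : ∀ t ∈ A, t.1 + t.2 = 2 * n ∧ t.1.Prime ∧ t.2.Prime ∧ t.1 ≡ c [MOD q] := by
    intro t ht
    rw [hA, mem_filter, HasAntidiagonal.mem_antidiagonal] at ht
    exact ht
  have h1 : (A.filter (fun t => t.1 ≤ n ∧ 2 * n < t.1 ^ 2)).card ≤ (parts q c n).card := by
    apply card_le_card_of_injOn (fun t => t.1)
    · intro t ht
      rw [mem_coe, mem_filter] at ht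
      obtain ⟨a1, a2, a3, a4⟩ := hmem t ht.1
      have e : 2 * n - t.1 = t.2 := by omega
      unfold parts
      rw [mem_coe, mem_filter, mem_Icc, e]
      exact ⟨⟨a2.one_le, ht.2.1⟩, ht.2.2, a2, a3, Or.inl a4⟩
    · intro t ht u hu h
      rw [mem_coe, mem_filter] at ht hu
      have b1 := (hmem t ht.1).1
      have b2 := (hmem u hu.1).1
      dsimp only at h
      exact Prod.ext h (by omega)
  have h2 : (A.filter (fun t => t.2 ≤ n ∧ 2 * n < t.2 ^ 2)).card ≤ (parts q c n).card := by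
    apply card_le_card_of_injOn (fun t => t.2)
    · intro t ht
      rw [mem_coe, mem_filter] at ht
      obtain ⟨a1, a2, a3, a4⟩ := hmem t ht.1
      have e : 2 * n - t.2 = t.1 := by omega
      unfold parts
      rw [mem_coe, mem_filter, mem_Icc, e]
      exact ⟨⟨a3.one_le, ht.2.1⟩, ht.2.2, a3, a2, Or.inr a4⟩
    · intro t ht u hu h
      rw [mem_coe, mem_filter] at ht hu
      have b1 := (hmem t ht.1).1
      have b2 := (hmem u hu.1).1
      dsimp only at h
      exact Prod.ext (by omega) h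
  have h3 : (A.filter (fun t => t.1 ^ 2 ≤ 2 * n)).card ≤ Nat.sqrt (2 * n) + 1 := by
    rw [← card_range (Nat.sqrt (2 * n) + 1)]
    apply card_le_card_of_injOn (fun t => t.1)
    · intro t ht
      rw [mem_coe, mem_filter] at ht
      rw [mem_coe, mem_range]
      exact Nat.lt_succ_of_le (Nat.le_sqrt'.2 ht.2)
    · intro t ht u hu h
      rw [mem_coe, mem_filter] at ht hu
      have b1 := (hmem t ht.1).1
      have b2 := (hmem u hu.1).1
      dsimp only at h
      exact Prod.ext h (by omega)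
  have h4 : (A.filter (fun t => t.2 ^ 2 ≤ 2 * n)).card ≤ Nat.sqrt (2 * n) + 1 := by
    rw [← card_range (Nat.sqrt (2 * n) + 1)]
    apply card_le_card_of_injOn (fun t => t.2)
    · intro t ht
      rw [mem_coe, mem_filter] at ht
      rw [mem_coe, mem_range]
      exact Nat.lt_succ_of_le (Nat.le_sqrt'.2 ht.2)
    · intro t ht u hu h
      rw [mem_coe, mem_filter] at ht hu
      have b1 := (hmem t ht.1).1
      have b2 := (hmem u hu.1).1
      dsimp only at h
      exact Prod.ext (by omega) h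
  have hsub : A ⊆ ((A.filter (fun t => t.1 ≤ n ∧ 2 * n < t.1 ^ 2)) ∪ (A.filter (fun t => t.2 ≤ n ∧ 2 * n < t.2 ^ 2))) ∪
      ((A.filter (fun t => t.1 ^ 2 ≤ 2 * n)) ∪ (A.filter (fun t => t.2 ^ 2 ≤ 2 * n))) := by
    intro t ht
    have b1 := (hmem t ht).1
    simp only [mem_union, mem_filter, ht, true_and]
    rcases le_or_gt (t.1 ^ 2) (2 * n) with h | h
    · exact Or.inr (Or.inl h)
    · rcases le_or_gt (t.2 ^ 2) (2 * n) with h' | h'
      · exact Or.inr (Or.inr h')
      · rcases le_or_gt t.1 n with h5 | h5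
        · exact Or.inl (Or.inl ⟨h5, h⟩)
        · exact Or.inl (Or.inr ⟨by omega, h'⟩)
  refine (card_le_card hsub).trans ((card_union_le _ _).trans ?_)
  exact add_le_add ((card_union_le _ _).trans (add_le_add h1 h2)) ((card_union_le _ _).trans (add_le_add h3 h4))

lemma sing_ge (n : ℕ) : 1 / 2 ≤ sing n := by
  unfold sing
  have h1 := C₂_ge 2 le_rfl
  have h2 := PP_half 2 le_rfl
  have hC : 1 / 4 ≤ C₂ := by
    refine le_trans ?_ h1
    push_cast
    nlinarith
  have h3 : 1 ≤ ∏ p ∈ n.primeFactors.filter (fun p => 2 < p), ((p : ℝ) - 1) / ((p : ℝ) - 2) := by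
    calc (1 : ℝ) = ∏ p ∈ n.primeFactors.filter (fun p => 2 < p), (1 : ℝ) := by simp
      _ ≤ _ := by
        apply Finset.prod_le_prod
        · intro _ _; exact zero_le_one
        · intro p hp
          rw [mem_filter] at hp
          have h : (3 : ℝ) ≤ p := by exact_mod_cast hp.2
          rw [one_le_div (by linarith)]
          linarith
  nlinarith

theorem first (q : ℕ) (hsq : Squarefree q) (h C U : ℕ) (hh : 1 ≤ h) (ε : ℝ) (hε : 0 < ε) :
    ∃ N₀ : ℕ, ∀ N : ℕ, N₀ ≤ N → ∀ (x : ℕ) (s : ℕ → ℕ),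
      (∀ m ∈ Icc 1 x, 1 ≤ s m ∧ s m ≤ N) →
      (energy h x s : ℝ) * N ≤ Real.log N ^ C * (x : ℝ) ^ (2 * h) →
      (badK ε q x s : ℝ) ≤ x / Real.log N ^ U := by
  classical
  have hq : 1 ≤ q := Nat.one_le_iff_ne_zero.2 hsq.ne_zero
  have hqr : (1 : ℝ) ≤ q := by exact_mod_cast hq
  obtain ⟨ε', hε'0, hε'1, hε'2⟩ : ∃ ε' : ℝ, 0 < ε' ∧ ε' ≤ 1 / 4 ∧ 2 * ε' ≤ ε := by
    refine ⟨min (ε / 2) (1 / 4), lt_min (by linarith) (by norm_num), min_le_right _ _, ?_⟩
    have := min_le_left (ε / 2) (1 / 4)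
    linarith
  obtain ⟨N₀, K, h0⟩ := main_k q hq hsq h (C + 1) U hh ε' hε'0
  obtain ⟨N₁, h1⟩ := Pool.Agent.H373R2.T7.ev_L' 2
  obtain ⟨N₂, h2⟩ := Pool.Agent.H373R2.T7.ev_log' (4 + K) ((8 * q / ε') ^ 2)
  refine ⟨N₀ + N₁ + N₂ + 1, fun N hN x s hs hE => ?_⟩
  have hL := h1 N (by omega)
  have hK := h2 (2 * N) (by omega)
  have hN1 : (1 : ℝ) ≤ N := by exact_mod_cast (by omega : 1 ≤ N)
  have hcast : ((2 * N : ℕ) : ℝ) = 2 * N := by push_cast; ring
  have hL2 : Real.log N ≤ Real.log ((2 * N : ℕ) : ℝ) := by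
    apply Real.log_le_log (by linarith)
    rw [hcast]; linarith
  have hL0 : 0 < Real.log N := by linarith
  obtain ⟨S, hS1, hS2⟩ := h0 (2 * N) (by omega) x (fun m => 2 * s m) (by
    intro m hm
    have := hs m hm
    refine ⟨⟨s m, by ring⟩, by omega, by omega⟩) (by
    rw [energy_eq, hcast]
    have hx : (0 : ℝ) ≤ (x : ℝ) ^ (2 * h) := by positivity
    calc (energy h x s : ℝ) * (2 * N) = 2 * ((energy h x s : ℝ) * N) := by ring
      _ ≤ 2 * (Real.log N ^ C * (x : ℝ) ^ (2 * h)) := by linarith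
      _ ≤ Real.log N * (Real.log N ^ C * (x : ℝ) ^ (2 * h)) :=
          mul_le_mul_of_nonneg_right hL (by positivity)
      _ = Real.log N ^ (C + 1) * (x : ℝ) ^ (2 * h) := by ring
      _ ≤ Real.log ((2 * N : ℕ) : ℝ) ^ (C + 1) * (x : ℝ) ^ (2 * h) := by
          apply mul_le_mul_of_nonneg_right _ hx
          exact pow_le_pow_left₀ hL0.le hL2 _
      _ = _ := by rw [hcast])
  have hSN : (S.card : ℝ) ≤ x / Real.log N ^ U := by
    refine hS1.trans ?_
    apply div_le_div_of_nonneg_left (by positivity) (by positivity)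
    exact pow_le_pow_left₀ hL0.le hL2 _
  refine le_trans ?_ hSN
  set L := Real.log ((2 * N : ℕ) : ℝ) with hLd
  have hLpos : 0 < L := by linarith
  have h3 : (Icc 1 x).filter (fun m => ¬ GoodK ε q (s m)) ⊆ S := by
    intro m hm
    rw [mem_filter] at hm
    by_contra hc
    apply hm.2
    intro c hc1 hc2
    have hsm := hs m hm.1
    obtain ⟨hbig, hall⟩ := hS2 m hm.1 hc
    have hadm : adm q (s m) = Aq q (2 * s m) := adm_count q (s m) hsq
    have key := hall c (by
      intro p hp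
      have hpp := Nat.prime_of_mem_primeFactors hp
      have hpq := Nat.dvd_of_mem_primeFactors hp
      constructor
      · intro hd
        have := Nat.dvd_gcd hd hpq
        rw [hc1] at this
        exact hpp.one_lt.ne' (Nat.dvd_one.1 this)
      · intro hd
        have h5 := Nat.modEq_iff_dvd.1 hd
        have h6 : (p : ℤ) ∣ 2 * ((s m : ℕ) : ℤ) - (c : ℤ) := by
          have e : ((2 * s m : ℕ) : ℤ) - (c : ℤ) = 2 * ((s m : ℕ) : ℤ) - (c : ℤ) := by push_cast; ring
          rwa [e] at h5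
        have h7 : (p : ℤ) ∣ (q : ℤ) := by exact_mod_cast hpq
        have h8 := Int.dvd_coe_gcd h6 h7
        rw [hc2] at h8
        have h9 : p ∣ 1 := by exact_mod_cast h8
        exact hpp.one_lt.ne' (Nat.dvd_one.1 h9))
    set n : ℕ := 2 * s m with hn
    have hn2 : (2 : ℝ) ≤ (n : ℝ) := by exact_mod_cast (by omega : 2 ≤ n)
    have hln0 : 0 < Real.log (n : ℝ) := Real.log_pos (by linarith)
    have hlnL : Real.log (n : ℝ) ≤ L := by
      apply Real.log_le_log (by linarith)
      exact_mod_cast (by omega : n ≤ 2 * N)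
    have hAq : Aq q n ≤ q := Aq_le q n hq
    have hAq0 : 0 < Aq q n := Aq_pos q n ⟨s m, by omega⟩
    have hAr : (0 : ℝ) < Aq q n := by exact_mod_cast hAq0
    have hArq : (Aq q n : ℝ) ≤ q := by exact_mod_cast hAq
    set M : ℝ := sing n / Aq q n * (n / Real.log n ^ 2) with hM
    have hMlow : (n : ℝ) / (2 * q * L ^ 2) ≤ M := by
      have a1 : 1 / (2 * (q : ℝ)) ≤ sing n / Aq q n := by
        rw [div_le_div_iff₀ (by positivity) hAr]
        have := sing_ge n
        nlinarith
      have a2 : (n : ℝ) / L ^ 2 ≤ n / Real.log n ^ 2 := by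
        apply div_le_div_of_nonneg_left (by linarith) (by positivity)
        exact pow_le_pow_left₀ hln0.le hlnL _
      calc (n : ℝ) / (2 * q * L ^ 2) = 1 / (2 * (q : ℝ)) * (n / L ^ 2) := by field_simp
        _ ≤ M := mul_le_mul a1 a2 (by positivity) (le_trans (by positivity) a1)
    have hroot : 4 * √(n : ℝ) ≤ ε' * M := by
      have b1 : (8 * q / ε' * L ^ 2) ^ 2 ≤ n := by
        have b2 : (8 * q / ε') ^ 2 * L ^ (4 + K) ≤ ((2 * N : ℕ) : ℝ) := by
          refine hK.trans ?_
          rw [Real.sqrt_le_left (by positivity)]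
          have : (1 : ℝ) ≤ ((2 * N : ℕ) : ℝ) := by rw [hcast]; linarith
          nlinarith
        have b3 : (8 * q / ε') ^ 2 * L ^ 4 ≤ ((2 * N : ℕ) : ℝ) / L ^ K := by
          rw [le_div_iff₀ (by positivity)]
          calc (8 * q / ε') ^ 2 * L ^ 4 * L ^ K = (8 * q / ε') ^ 2 * L ^ (4 + K) := by rw [pow_add]; ring
            _ ≤ _ := b2
        calc (8 * q / ε' * L ^ 2) ^ 2 = (8 * q / ε') ^ 2 * L ^ 4 := by ring
          _ ≤ _ := b3
          _ ≤ n := hbig.le
      have b4 : 8 * q / ε' * L ^ 2 ≤ √(n : ℝ) := Real.le_sqrt_of_sq_le b1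
      have b5 : √(n : ℝ) * √(n : ℝ) = n := Real.mul_self_sqrt (by linarith)
      have b6 : 0 ≤ √(n : ℝ) := Real.sqrt_nonneg _
      calc 4 * √(n : ℝ) = ε' * (8 * q / ε' * L ^ 2 * √(n : ℝ) / (2 * q * L ^ 2)) := by
            field_simp
            ring
        _ ≤ ε' * (√(n : ℝ) * √(n : ℝ) / (2 * q * L ^ 2)) := by
            apply mul_le_mul_of_nonneg_left _ hε'0.le
            apply div_le_div_of_nonneg_right _ (by positivity)
            exact mul_le_mul_of_nonneg_right b4 b6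
        _ ≤ ε' * M := by
            rw [b5]
            exact mul_le_mul_of_nonneg_left hMlow hε'0.le
    have hM0 : 0 < M := lt_of_lt_of_le (by positivity) hMlow
    have hcount : (gc q c n : ℝ) ≤ 2 * (parts q c (s m)).card + 2 * (√(n : ℝ) + 1) := by
      have c1 := gc_le q c (s m)
      have c2 : ((Nat.sqrt n : ℕ) : ℝ) ≤ √(n : ℝ) := Real.nat_sqrt_le_real_sqrt
      have c3 : (gc q c n : ℝ) ≤ ((parts q c (s m)).card + (parts q c (s m)).card) +
          ((Nat.sqrt n + 1) + (Nat.sqrt n + 1)) := by exact_mod_cast c1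
      linarith
    have hroot1 : 1 ≤ √(n : ℝ) := by
      rw [Real.one_le_sqrt]; linarith
    have key1 := (abs_le.1 key).1
    have hfin : (1 - 2 * ε') / 2 * M ≤ (parts q c (s m)).card := by nlinarith
    have e1 : M = HL (2 * s m) / (adm q (s m) : ℝ) := by
      rw [hM, hadm]
      unfold HL
      rw [← hn]
      ring
    rw [← e1]
    refine ⟨?_, le_trans ?_ hfin⟩
    · have h8 : (0 : ℝ) < (parts q c (s m)).card := by
        refine lt_of_lt_of_le ?_ hfin
        have : 0 < (1 - 2 * ε') / 2 := by linarith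
        positivity
      exact_mod_cast h8
    · apply mul_le_mul_of_nonneg_right _ hM0.le
      linarith
  unfold badK
  exact_mod_cast card_le_card h3

end Pool.Agent.H945R3.KNJ
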